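import Pool.Agent.X19.ASQ.Defs

/-! # Functionals on the symmetric square and bilinear forms -/

set_option autoImplicit false

namespace Pool.Agent.X19.ASQ

open scoped TensorProduct

variable {X : Type} [NormedAddCommGroup X] [NormedSpace ℝ X]

/-- the multilinear map of a bilinear form -/
noncomputable def mul2 (B : X →ₗ[ℝ] X →ₗ[ℝ] ℝ) : MultilinearMap ℝ (fun _ : Fin 2 => X) ℝ where
  toFun m := B (m 0) (m 1)
  map_update_add' m i x y := by
    fin_cases i <;> simp
  map_update_smul' m i c x := by
    fin_cases i <;> simp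

/-- the functional of a bounded quadratic form -/
theorem functional_of_bil (B : X →ₗ[ℝ] X →ₗ[ℝ] ℝ) (C : ℝ) (hC : 0 ≤ C)
    (h : ∀ x, |B x x| ≤ C * ‖x‖ ^ 2) :
    ∃ f : StrongDual ℝ (SymProj 2 X), ‖f‖ ≤ C ∧ ∀ x : X, f (tau x) = B x x := by
  have e : ∀ x : X, PiTensorProduct.lift (mul2 B) (power 2 X x) = B x x := by
    intro x
    rw [power, PiTensorProduct.lift.tprod]
    rfl
  obtain ⟨f, hf, hfx⟩ := exists_functional (N := 2) (PiTensorProduct.lift (mul2 B)) C hC
    (fun x => by rw [e]; exact h x)
  exact ⟨f, hf, fun x => by rw [hfx, e]⟩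

/-- the tensor `x ⊗ y` -/
noncomputable def ten (x y : X) : ⨂[ℝ] _ : Fin 2, X := PiTensorProduct.tprod ℝ ![x, y]

theorem power_eq (x : X) : power 2 X x = ten x x := by
  rw [power, ten]
  congr 1
  funext i
  fin_cases i <;> rfl

theorem ten_add_left (x x' y : X) : ten (x + x') y = ten x y + ten x' y := by
  have h := (PiTensorProduct.tprod ℝ (s := fun _ : Fin 2 => X)).map_update_add ![x, y] 0 x x'
  have e : ∀ z : X, Function.update ![x, y] 0 z = ![z, y] := by
    intro z
    funext i
    fin_cases i <;> simp
  rw [e, e, e] at h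
  exact h

theorem ten_add_right (x y y' : X) : ten x (y + y') = ten x y + ten x y' := by
  have h := (PiTensorProduct.tprod ℝ (s := fun _ : Fin 2 => X)).map_update_add ![x, y] 1 y y'
  have e : ∀ z : X, Function.update ![x, y] 1 z = ![x, z] := by
    intro z
    funext i
    fin_cases i <;> simp
  rw [e, e, e] at h
  exact h

theorem ten_smul_left (c : ℝ) (x y : X) : ten (c • x) y = c • ten x y := by
  have h := (PiTensorProduct.tprod ℝ (s := fun _ : Fin 2 => X)).map_update_smul ![x, y] 0 c x
  have e : ∀ z : X, Function.update ![x, y] 0 z = ![z, y] := by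
    intro z
    funext i
    fin_cases i <;> simp
  rw [e, e] at h
  exact h

theorem ten_smul_right (c : ℝ) (x y : X) : ten x (c • y) = c • ten x y := by
  have h := (PiTensorProduct.tprod ℝ (s := fun _ : Fin 2 => X)).map_update_smul ![x, y] 1 c y
  have e : ∀ z : X, Function.update ![x, y] 1 z = ![x, z] := by
    intro z
    funext i
    fin_cases i <;> simp
  rw [e, e] at h
  exact h

/-- the symmetric tensor `x ⊗ y + y ⊗ x` -/
noncomputable def st (x y : X) : Sym 2 X := el (x + y) - el x - el y

theorem incl_st (x y : X) : incl (st x y) = ten x y + ten y x := by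
  rw [st, map_sub, map_sub, incl_el, incl_el, incl_el, power_eq, power_eq, power_eq, ten_add_left,
    ten_add_right, ten_add_right]
  abel

theorem bil_of_functional (f : StrongDual ℝ (SymProj 2 X)) :
    ∃ B : X →ₗ[ℝ] X →ₗ[ℝ] ℝ, (∀ x y, B x y = B y x) ∧ ∀ x : X, f (tau x) = B x x := by
  let g : Sym 2 X →ₗ[ℝ] ℝ := f.toLinearMap ∘ₗ (toProj (N := 2) (X := X)).toLinearMap
  let B : X →ₗ[ℝ] X →ₗ[ℝ] ℝ := LinearMap.mk₂ ℝ (fun x y => (1 / 2 : ℝ) * g (st x y))
    (fun x x' y => by
      rw [← mul_add, ← map_add]
      congr 2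
      apply incl_injective
      rw [map_add, incl_st, incl_st, incl_st, ten_add_left, ten_add_right]
      abel)
    (fun c x y => by
      rw [smul_eq_mul, mul_left_comm, ← smul_eq_mul c, ← map_smul]
      congr 2
      apply incl_injective
      rw [map_smul, incl_st, incl_st, ten_smul_left, ten_smul_right, smul_add])
    (fun x y y' => by
      rw [← mul_add, ← map_add]
      congr 2
      apply incl_injective
      rw [map_add, incl_st, incl_st, incl_st, ten_add_left, ten_add_right]
      abel)
    (fun c x y => by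
      rw [smul_eq_mul, mul_left_comm, ← smul_eq_mul c, ← map_smul]
      congr 2
      apply incl_injective
      rw [map_smul, incl_st, incl_st, ten_smul_left, ten_smul_right, smul_add])
  refine ⟨B, fun x y => ?_, fun x => ?_⟩
  · change (1 / 2 : ℝ) * g (st x y) = (1 / 2 : ℝ) * g (st y x)
    congr 2
    apply incl_injective
    rw [incl_st, incl_st, add_comm]
  · change g (el x) = (1 / 2 : ℝ) * g (st x x)
    have : st x x = (2 : ℝ) • el x := by
      apply incl_injective
      rw [incl_st, map_smul, incl_el, power_eq, two_smul]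
    rw [this, map_smul, smul_eq_mul]
    ring

end Pool.Agent.X19.ASQ
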