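import Pool.Agent.X19.ASQ.Bil
import Pool.Agent.H758R2.Groth

/-! # The space `c₀` -/

set_option autoImplicit false

namespace Pool.Agent.X19.ASQ

open Filter Topology
open scoped ZeroAtInfty

/-- the space `c₀` -/
abbrev C0 : Type := C₀(ℕ, ℝ)

theorem abs_le_norm (x : C0) (n : ℕ) : |x n| ≤ ‖x‖ := by
  have h := x.toBCF.norm_coe_le_norm n
  rw [ZeroAtInftyContinuousMap.norm_toBCF_eq_norm] at h
  exact h

theorem norm_le_of (x : C0) {C : ℝ} (hC : 0 ≤ C) (h : ∀ n, |x n| ≤ C) : ‖x‖ ≤ C := by
  rw [← ZeroAtInftyContinuousMap.norm_toBCF_eq_norm]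
  exact (BoundedContinuousFunction.norm_le hC).2 h

theorem tendsto_coord (x : C0) : Tendsto (fun n => x n) atTop (𝓝 0) := by
  have h := x.zero_at_infty'
  rw [Filter.cocompact_eq_cofinite, Nat.cofinite_eq_atTop] at h
  exact h

/-- the unit vectors -/
noncomputable def e (n : ℕ) : C0 where
  toFun k := if k = n then 1 else 0
  continuous_toFun := continuous_of_discreteTopology
  zero_at_infty' := by
    rw [Filter.cocompact_eq_cofinite, Nat.cofinite_eq_atTop]
    refine tendsto_const_nhds.congr' ?_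
    filter_upwards [eventually_gt_atTop n] with k hk
    rw [if_neg hk.ne']

theorem e_apply (n k : ℕ) : e n k = if k = n then 1 else 0 := rfl

theorem norm_e_le (n : ℕ) : ‖e n‖ ≤ 1 := by
  refine norm_le_of _ zero_le_one fun k => ?_
  rw [e_apply]
  split_ifs <;> simp

theorem norm_e (n : ℕ) : ‖e n‖ = 1 := by
  refine le_antisymm (norm_e_le n) ?_
  have := abs_le_norm (e n) n
  rw [e_apply, if_pos rfl, abs_one] at this
  exact this

theorem almostSquare_C0 : AlmostSquare C0 := by
  intro k x hx ε hε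
  have h : ∀ᶠ n in atTop, ∀ i, |x i n| < ε := by
    rw [eventually_all]
    intro i
    have := (tendsto_coord (x i)).eventually (Metric.ball_mem_nhds 0 hε)
    filter_upwards [this] with n hn
    rwa [Real.dist_eq, sub_zero] at hn
  obtain ⟨n, hn⟩ := h.exists
  refine ⟨e n, norm_e n, fun i => ⟨?_, ?_⟩⟩
  · refine norm_le_of _ (by linarith) fun m => ?_
    rw [ZeroAtInftyContinuousMap.add_apply, e_apply]
    split_ifs with hm
    · subst hm
      refine (abs_add_le _ _).trans ?_
      rw [abs_one]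
      linarith [hn i]
    · rw [add_zero]
      linarith [abs_le_norm (x i) m, hx i]
  · refine norm_le_of _ (by linarith) fun m => ?_
    rw [ZeroAtInftyContinuousMap.sub_apply, e_apply]
    split_ifs with hm
    · subst hm
      refine (abs_sub _ _).trans ?_
      rw [abs_one]
      linarith [hn i]
    · rw [sub_zero]
      linarith [abs_le_norm (x i) m, hx i]

/-- the coordinate functionals -/
noncomputable def ev (n : ℕ) : C0 →ₗ[ℝ] ℝ where
  toFun x := x n
  map_add' x y := rfl
  map_smul' c x := rfl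

theorem ev_apply (n : ℕ) (x : C0) : ev n x = x n := rfl

/-- the bilinear form `φ(x) ψ(y)` -/
noncomputable def prodB (φ ψ : C0 →ₗ[ℝ] ℝ) : C0 →ₗ[ℝ] C0 →ₗ[ℝ] ℝ :=
  LinearMap.mk₂ ℝ (fun x y => φ x * ψ y) (fun x x' y => by rw [map_add, add_mul])
    (fun c x y => by rw [map_smul, smul_eq_mul, smul_eq_mul, mul_assoc])
    (fun x y y' => by rw [map_add, mul_add])
    (fun c x y => by rw [map_smul, smul_eq_mul, smul_eq_mul, mul_left_comm])

theorem prodB_apply (φ ψ : C0 →ₗ[ℝ] ℝ) (x y : C0) : prodB φ ψ x y = φ x * ψ y := rfl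

/-- restriction to the coordinates `1, …, N + 1` -/
noncomputable def S (N : ℕ) : C0 →ₗ[ℝ] C0 :=
  ∑ i : Fin (N + 1), (ev (i + 1)).smulRight (e (i + 1))

theorem S_apply (N : ℕ) (x : C0) : S N x = ∑ i : Fin (N + 1), x (i + 1) • e (i + 1) := by
  rw [S, LinearMap.sum_apply]
  rfl

theorem sum_coord {ι : Type} (s : Finset ι) (f : ι → C0) (k : ℕ) :
    (∑ i ∈ s, f i) k = ∑ i ∈ s, f i k := by
  rw [← ev_apply, map_sum]
  rfl

theorem comb_coord (N : ℕ) (r : Fin (N + 1) → ℝ) (k : ℕ) :
    (∑ i : Fin (N + 1), r i • e (i + 1)) k =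
      if h : 1 ≤ k ∧ k < N + 2 then r ⟨k - 1, by omega⟩ else 0 := by
  rw [sum_coord]
  split_ifs with h
  · rw [Finset.sum_eq_single (⟨k - 1, by omega⟩ : Fin (N + 1))]
    · rw [ZeroAtInftyContinuousMap.smul_apply, e_apply, if_pos (by simp; omega), smul_eq_mul, mul_one]
    · intro i _ hi
      rw [ZeroAtInftyContinuousMap.smul_apply, e_apply, if_neg, smul_zero]
      intro h2
      apply hi
      ext
      simp
      omega
    · intro h2
      exact absurd (Finset.mem_univ _) h2
  · refine Finset.sum_eq_zero fun i _ => ?_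
    rw [ZeroAtInftyContinuousMap.smul_apply, e_apply, if_neg, smul_zero]
    intro h2
    have := i.2
    omega

/-- restriction to the coordinates `0, …, N + 1` -/
noncomputable def T (N : ℕ) : C0 →ₗ[ℝ] C0 := (ev 0).smulRight (e 0) + S N

theorem T_apply (N : ℕ) (x : C0) : T N x = x 0 • e 0 + S N x := rfl

theorem S_coord (N : ℕ) (x : C0) (k : ℕ) : S N x k = if 1 ≤ k ∧ k < N + 2 then x k else 0 := by
  rw [S_apply, comb_coord N (fun i => x (i + 1)) k]
  split_ifs with h
  · simp only
    congr 1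
    omega
  · rfl

theorem T_coord (N : ℕ) (x : C0) (k : ℕ) : T N x k = if k < N + 2 then x k else 0 := by
  rw [T_apply, ZeroAtInftyContinuousMap.add_apply, ZeroAtInftyContinuousMap.smul_apply, S_coord,
    e_apply, smul_eq_mul]
  rcases Nat.eq_zero_or_pos k with hk | hk
  · subst hk
    simp
  · by_cases h : k < N + 2
    · rw [if_neg hk.ne', if_pos ⟨hk, h⟩, if_pos h]
      ring
    · rw [if_neg hk.ne', if_neg (fun h2 => h h2.2), if_neg h]
      ring

theorem tendsto_T (x : C0) : Tendsto (fun N => T N x) atTop (𝓝 x) := by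
  rw [Metric.tendsto_atTop]
  intro ε hε
  have h := tendsto_coord x
  rw [Metric.tendsto_atTop] at h
  obtain ⟨N0, hN0⟩ := h (ε / 2) (by positivity)
  refine ⟨N0, fun N hN => ?_⟩
  rw [dist_eq_norm]
  refine lt_of_le_of_lt (norm_le_of _ (C := ε / 2) (by positivity) fun k => ?_) (by linarith)
  rw [ZeroAtInftyContinuousMap.sub_apply, T_coord]
  split_ifs with hk
  · rw [sub_self, abs_zero]
    positivity
  · have := hN0 k (by omega)
    rw [Real.dist_eq, sub_zero] at this
    rw [zero_sub, abs_neg]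
    exact this.le

theorem norm_T_le (N : ℕ) (x : C0) : ‖T N x‖ ≤ ‖x‖ := by
  refine norm_le_of _ (norm_nonneg _) fun k => ?_
  rw [T_coord]
  split_ifs
  · exact abs_le_norm x k
  · rw [abs_zero]; exact norm_nonneg _

end Pool.Agent.X19.ASQ
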