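import Mathlib

/-! # The symmetric projective tensor product of a real normed space -/

set_option autoImplicit false

namespace Pool.Agent.X19.ASQ

open scoped TensorProduct

/-- A Banach space is almost square if for every finite family of points `x_i` of the unit sphere
and every `ε > 0` there is `y` in the unit sphere with `‖x_i ± y‖ ≤ 1 + ε` for all `i`. -/
def AlmostSquare (X : Type) [NormedAddCommGroup X] : Prop :=
  ∀ (k : ℕ) (x : Fin k → X), (∀ i, ‖x i‖ = 1) → ∀ ε : ℝ, 0 < ε →
    ∃ y : X, ‖y‖ = 1 ∧ ∀ i, ‖x i + y‖ ≤ 1 + ε ∧ ‖x i - y‖ ≤ 1 + ε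

section

variable (N : ℕ) (X : Type) [NormedAddCommGroup X] [NormedSpace ℝ X]

/-- The elementary symmetric tensor `x ⊗ ⋯ ⊗ x`. -/
noncomputable def power (x : X) : ⨂[ℝ] _ : Fin N, X := PiTensorProduct.tprod ℝ fun _ => x

/-- The algebraic symmetric tensor product: the linear span of the elementary symmetric tensors. -/
def Sym : Type := ↥(Submodule.span ℝ (Set.range (power N X)))

noncomputable instance : AddCommGroup (Sym N X) :=
  (inferInstance : AddCommGroup ↥(Submodule.span ℝ (Set.range (power N X))))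

noncomputable instance : Module ℝ (Sym N X) :=
  (inferInstance : Module ℝ ↥(Submodule.span ℝ (Set.range (power N X))))

variable {N X}

/-- The inclusion of the symmetric tensors in all tensors. -/
noncomputable def incl : Sym N X →ₗ[ℝ] ⨂[ℝ] _ : Fin N, X :=
  (Submodule.span ℝ (Set.range (power N X))).subtype

theorem incl_injective : Function.Injective (incl : Sym N X → _) := Subtype.val_injective

/-- The numbers `∑ |c_i| ‖x_i‖ ^ N` over all the finite representations `u = ∑ c_i x_i ⊗ ⋯ ⊗ x_i`. -/
def costs (u : Sym N X) : Set ℝ :=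
  {r | ∃ (m : ℕ) (c : Fin m → ℝ) (x : Fin m → X), incl u = ∑ i, c i • power N X (x i) ∧
    r = ∑ i, |c i| * ‖x i‖ ^ N}

/-- The symmetric projective norm. -/
noncomputable instance : Norm (Sym N X) := ⟨fun u => sInf (costs u)⟩

theorem norm_def (u : Sym N X) : ‖u‖ = sInf (costs u) := rfl

theorem costs_nonneg {u : Sym N X} {r : ℝ} (h : r ∈ costs u) : 0 ≤ r := by
  obtain ⟨m, c, x, -, rfl⟩ := h
  positivity

theorem costs_bdd (u : Sym N X) : BddBelow (costs u) := ⟨0, fun _ h => costs_nonneg h⟩

theorem costs_nonempty (u : Sym N X) : (costs u).Nonempty := by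
  have h : incl u ∈ Submodule.span ℝ (Set.range (power N X)) := Subtype.property u
  rw [Finsupp.mem_span_range_iff_exists_finsupp] at h
  obtain ⟨c, hc⟩ := h
  refine ⟨_, c.support.card, fun i => c (c.support.equivFin.symm i),
    fun i => c.support.equivFin.symm i, ?_, rfl⟩
  rw [← hc, Finsupp.sum, ← Finset.sum_coe_sort]
  exact (Fintype.sum_equiv c.support.equivFin _ _ (fun i => by simp))

theorem norm_le_of_mem {u : Sym N X} {r : ℝ} (h : r ∈ costs u) : ‖u‖ ≤ r := csInf_le (costs_bdd u) h

theorem exists_cost_lt {u : Sym N X} {r : ℝ} (h : ‖u‖ < r) : ∃ s ∈ costs u, s < r :=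
  exists_lt_of_csInf_lt (costs_nonempty u) h

theorem costs_smul {u : Sym N X} {r : ℝ} (a : ℝ) (h : r ∈ costs u) : |a| * r ∈ costs (a • u) := by
  obtain ⟨m, c, x, hu, rfl⟩ := h
  refine ⟨m, fun i => a * c i, x, ?_, ?_⟩
  · rw [map_smul, hu, Finset.smul_sum]
    simp only [smul_smul]
  · rw [Finset.mul_sum]
    simp only [abs_mul, mul_assoc]

theorem costs_add {u v : Sym N X} {r s : ℝ} (h : r ∈ costs u) (h' : s ∈ costs v) :
    r + s ∈ costs (u + v) := by
  obtain ⟨m, c, x, hu, rfl⟩ := h
  obtain ⟨n, d, y, hv, rfl⟩ := h'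
  refine ⟨m + n, Fin.append c d, Fin.append x y, ?_, ?_⟩
  · rw [map_add, hu, hv, Fin.sum_univ_add]
    simp
  · rw [Fin.sum_univ_add]
    simp

theorem core : SeminormedSpace.Core ℝ (Sym N X) where
  norm_nonneg u := by
    rw [norm_def]
    exact Real.sInf_nonneg fun r h => costs_nonneg h
  norm_smul a u := by
    have key : ∀ (a : ℝ) (u : Sym N X), ‖a • u‖ ≤ |a| * ‖u‖ := by
      intro a u
      apply le_of_forall_pos_lt_add
      intro ε hε
      have h1 : ‖u‖ < ‖u‖ + ε / (|a| + 1) := by
        have : 0 < ε / (|a| + 1) := by positivity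
        linarith
      obtain ⟨s, hs, hs2⟩ := exists_cost_lt h1
      calc ‖a • u‖ ≤ |a| * s := norm_le_of_mem (costs_smul a hs)
        _ ≤ |a| * (‖u‖ + ε / (|a| + 1)) := mul_le_mul_of_nonneg_left hs2.le (abs_nonneg a)
        _ = |a| * ‖u‖ + ε * (|a| / (|a| + 1)) := by ring
        _ < |a| * ‖u‖ + ε := by
            have : |a| / (|a| + 1) < 1 := by
              rw [div_lt_one (by positivity)]
              linarith
            nlinarith
    rw [Real.norm_eq_abs]
    apply le_antisymm (key a u)
    by_cases ha : a = 0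
    · rw [ha, abs_zero, zero_mul, norm_def]
      exact Real.sInf_nonneg fun r h => costs_nonneg h
    · have h1 := key a⁻¹ (a • u)
      rw [smul_smul, inv_mul_cancel₀ ha, one_smul, abs_inv] at h1
      have ha' : 0 < |a| := abs_pos.2 ha
      rwa [← div_eq_inv_mul, le_div_iff₀' ha'] at h1
  norm_triangle u v := by
    apply le_of_forall_pos_lt_add
    intro ε hε
    obtain ⟨s, hs, hs2⟩ := exists_cost_lt (show ‖u‖ < ‖u‖ + ε / 2 by linarith)
    obtain ⟨t, ht, ht2⟩ := exists_cost_lt (show ‖v‖ < ‖v‖ + ε / 2 by linarith)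
    have := norm_le_of_mem (costs_add hs ht)
    linarith

noncomputable instance : SeminormedAddCommGroup (Sym N X) := SeminormedAddCommGroup.ofCore core

noncomputable instance : NormedSpace ℝ (Sym N X) where
  norm_smul_le r x := (core.norm_smul r x).le

end

/-- The symmetric projective tensor product: the completion of the algebraic symmetric tensor
product for the symmetric projective norm. -/
def SymProj (N : ℕ) (X : Type) [NormedAddCommGroup X] [NormedSpace ℝ X] : Type :=
  UniformSpace.Completion (Sym N X)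

section

variable {N : ℕ} {X : Type} [NormedAddCommGroup X] [NormedSpace ℝ X]

noncomputable instance : NormedAddCommGroup (SymProj N X) :=
  (inferInstance : NormedAddCommGroup (UniformSpace.Completion (Sym N X)))

noncomputable instance : NormedSpace ℝ (SymProj N X) :=
  (inferInstance : NormedSpace ℝ (UniformSpace.Completion (Sym N X)))

instance : CompleteSpace (SymProj N X) :=
  (inferInstance : CompleteSpace (UniformSpace.Completion (Sym N X)))

/-- elementary symmetric tensors as elements of `Sym` -/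
noncomputable def el (x : X) : Sym N X := ⟨power N X x, Submodule.subset_span ⟨x, rfl⟩⟩

theorem incl_el (x : X) : incl (el x : Sym N X) = power N X x := rfl

theorem norm_el_le (x : X) : ‖(el x : Sym N X)‖ ≤ ‖x‖ ^ N :=
  norm_le_of_mem ⟨1, fun _ => 1, fun _ => x, by simp [incl_el], by simp⟩

/-- the map to the completion -/
noncomputable def toProj : Sym N X →ₗᵢ[ℝ] SymProj N X := UniformSpace.Completion.toComplₗᵢ

theorem dense_toProj : DenseRange (toProj : Sym N X → SymProj N X) :=
  UniformSpace.Completion.denseRange_coe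

/-- elementary symmetric tensors as elements of `SymProj` -/
noncomputable def tau (x : X) : SymProj N X := toProj (el x)

theorem norm_tau_le (x : X) : ‖(tau x : SymProj N X)‖ ≤ ‖x‖ ^ N := by
  rw [tau, LinearIsometry.norm_map]
  exact norm_el_le x

theorem sym_eq_sum (u : Sym N X) : ∃ (m : ℕ) (c : Fin m → ℝ) (x : Fin m → X),
    u = ∑ i, c i • (el (x i) : Sym N X) := by
  obtain ⟨r, m, c, x, hu, -⟩ := costs_nonempty u
  refine ⟨m, c, x, incl_injective ?_⟩
  rw [hu, map_sum]
  simp [incl_el]

/-- uniqueness of functionals -/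
theorem functional_ext {f g : StrongDual ℝ (SymProj N X)} (h : ∀ x : X, f (tau x) = g (tau x)) :
    f = g := by
  apply ContinuousLinearMap.coeFn_injective
  refine DenseRange.equalizer dense_toProj f.continuous g.continuous ?_
  funext u
  obtain ⟨m, c, x, rfl⟩ := sym_eq_sum u
  simp only [Function.comp_apply, map_sum, map_smul]
  refine Finset.sum_congr rfl fun i _ => ?_
  congr 1
  exact h (x i)

/-- existence of functionals -/
theorem exists_functional (φ : (⨂[ℝ] _ : Fin N, X) →ₗ[ℝ] ℝ) (C : ℝ) (hC : 0 ≤ C)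
    (h : ∀ x : X, |φ (power N X x)| ≤ C * ‖x‖ ^ N) :
    ∃ f : StrongDual ℝ (SymProj N X), ‖f‖ ≤ C ∧ ∀ x : X, f (tau x) = φ (power N X x) := by
  have hb : ∀ u : Sym N X, ‖(φ ∘ₗ incl) u‖ ≤ C * ‖u‖ := by
    intro u
    apply le_of_forall_pos_lt_add
    intro ε hε
    obtain ⟨s, hs, hs2⟩ := exists_cost_lt (show ‖u‖ < ‖u‖ + ε / (C + 1) by
      have : 0 < ε / (C + 1) := by positivity
      linarith)
    obtain ⟨m, c, x, hu, rfl⟩ := hs
    have h1 : ‖(φ ∘ₗ incl) u‖ ≤ C * ∑ i, |c i| * ‖x i‖ ^ N := by
      rw [LinearMap.comp_apply, hu, map_sum, Finset.mul_sum]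
      refine (norm_sum_le _ _).trans (Finset.sum_le_sum fun i _ => ?_)
      rw [map_smul, smul_eq_mul, norm_mul, Real.norm_eq_abs, Real.norm_eq_abs]
      calc |c i| * |φ (power N X (x i))| ≤ |c i| * (C * ‖x i‖ ^ N) :=
            mul_le_mul_of_nonneg_left (h _) (abs_nonneg _)
        _ = C * (|c i| * ‖x i‖ ^ N) := by ring
    calc ‖(φ ∘ₗ incl) u‖ ≤ C * ∑ i, |c i| * ‖x i‖ ^ N := h1
      _ ≤ C * (‖u‖ + ε / (C + 1)) := mul_le_mul_of_nonneg_left hs2.le hC
      _ = C * ‖u‖ + ε * (C / (C + 1)) := by ring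
      _ < C * ‖u‖ + ε := by
          have : C / (C + 1) < 1 := by
            rw [div_lt_one (by positivity)]
            linarith
          nlinarith
  let f0 : Sym N X →L[ℝ] ℝ := (φ ∘ₗ incl).mkContinuous C hb
  let f : SymProj N X →L[ℝ] ℝ := f0.extend (toProj (N := N) (X := X)).toContinuousLinearMap
  have hf : ∀ u : Sym N X, f (toProj u) = f0 u := fun u =>
    ContinuousLinearMap.extend_eq f0 dense_toProj
      (toProj (N := N) (X := X)).isometry.isUniformInducing u
  refine ⟨f, ?_, fun x => ?_⟩
  · refine ContinuousLinearMap.opNorm_le_bound _ hC fun y => ?_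
    refine dense_toProj.induction_on y (isClosed_le (f.continuous.norm)
      (continuous_const.mul continuous_norm)) fun u => ?_
    rw [hf, LinearIsometry.norm_map]
    exact hb u
  · rw [tau, hf]
    rfl

end

end Pool.Agent.X19.ASQ
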