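import Pool.Agent.X19.ASQ.Main

/-! # The symmetric projective square of `c₀` is not almost square: conclusion -/

set_option autoImplicit false

namespace Pool.Agent.X19.ASQ

open Filter Topology
open scoped ZeroAtInfty

/-- approximation by finitely many coordinates -/
theorem approx {B : C0 →ₗ[ℝ] C0 →ₗ[ℝ] ℝ} (hs : ∀ x y, B x y = B y x) (hb : ∀ x, |B x x| ≤ ‖x‖ ^ 2)
    (f : StrongDual ℝ (SymProj 2 C0)) (hf : ‖f‖ ≤ 1) (hfB : ∀ x, f (tau x) = B x x)
    (g : ℕ → StrongDual ℝ (SymProj 2 C0)) (hg : ∀ N, ‖g N‖ ≤ 1)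
    (hgB : ∀ N x, g N (tau x) = B (T N x) (T N x)) (v : SymProj 2 C0) (hv : f v = 1) :
    ∃ N, 1 / 2 ≤ g N v := by
  obtain ⟨u, hu⟩ := dense_toProj.exists_dist_lt v (show (0 : ℝ) < 1 / 8 by norm_num)
  rw [dist_eq_norm] at hu
  have h1 : Tendsto (fun N => g N (toProj u)) atTop (𝓝 (f (toProj u))) := by
    obtain ⟨m, c, x, rfl⟩ := sym_eq_sum u
    simp only [map_sum, map_smul]
    refine tendsto_finsetSum _ fun i _ => Tendsto.const_smul ?_ _
    have e1 : ∀ N, g N (toProj (el (x i))) = B (T N (x i)) (T N (x i)) := fun N => hgB N (x i)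
    have e2 : f (toProj (el (x i))) = B (x i) (x i) := hfB (x i)
    rw [e2]
    simp only [e1]
    exact tendsto_bil hs hb (x i)
  rw [Metric.tendsto_atTop] at h1
  obtain ⟨N, hN⟩ := h1 (1 / 8) (by norm_num)
  refine ⟨N, ?_⟩
  have h2 := hN N le_rfl
  rw [Real.dist_eq, abs_lt] at h2
  have h3 : |f (v - toProj u)| ≤ 1 / 8 := by
    have := f.le_opNorm (v - toProj u)
    rw [Real.norm_eq_abs] at this
    nlinarith [norm_nonneg (v - toProj u)]
  have h4 : |g N (v - toProj u)| ≤ 1 / 8 := by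
    have := (g N).le_opNorm (v - toProj u)
    rw [Real.norm_eq_abs] at this
    nlinarith [norm_nonneg (v - toProj u), hg N]
  rw [map_sub, abs_le] at h3 h4
  linarith [h2.1, h3.1, h3.2, h4.1, h4.2]

theorem S_e0 (N : ℕ) : S N (e 0) = 0 := by
  ext k
  rw [S_coord]
  split_ifs with h
  · rw [e_apply, if_neg (by omega)]
    rfl
  · rfl

theorem sub_ap (f g : StrongDual ℝ (SymProj 2 C0)) (y : SymProj 2 C0) : (f - g) y = f y - g y := rfl

theorem add_ap (f g : StrongDual ℝ (SymProj 2 C0)) (y : SymProj 2 C0) : (f + g) y = f y + g y := rfl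

theorem smul_ap (c : ℝ) (f : StrongDual ℝ (SymProj 2 C0)) (y : SymProj 2 C0) : (c • f) y = c * f y := rfl

theorem not_almostSquare : ¬ AlmostSquare (SymProj 2 C0) := by
  intro hA
  -- the functional `x ↦ x₀²`
  obtain ⟨f1, hf1, hf1x⟩ := functional_of_bil (prodB (ev 0) (ev 0)) 1 zero_le_one (fun x => by
    rw [prodB_apply, ev_apply, one_mul, ← sq, abs_of_nonneg (sq_nonneg _), ← sq_abs (x 0)]
    exact pow_le_pow_left₀ (abs_nonneg _) (abs_le_norm x 0) 2)
  have he0 : f1 (tau (e 0)) = 1 := by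
    rw [hf1x, prodB_apply, ev_apply, e_apply, if_pos rfl, one_mul]
  have hu0 : ‖(tau (e 0) : SymProj 2 C0)‖ = 1 := by
    apply le_antisymm
    · refine (norm_tau_le _).trans ?_
      rw [norm_e, one_pow]
    · have := f1.le_opNorm (tau (e 0))
      rw [he0, norm_one] at this
      nlinarith [norm_nonneg (tau (e 0) : SymProj 2 C0)]
  obtain ⟨v, hv1, hv⟩ := hA 1 (fun _ => tau (e 0)) (fun _ => hu0) (1 / 100000) (by norm_num)
  obtain ⟨hvp, hvm⟩ := hv 0
  have hdual : ∀ (g : StrongDual ℝ (SymProj 2 C0)), ‖g‖ ≤ 1 → 0 ≤ g (tau (e 0)) →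
      |g v| ≤ 1 + 1 / 100000 - g (tau (e 0)) := by
    intro g hg h0
    have h1 : |g (tau (e 0) + v)| ≤ 1 + 1 / 100000 := by
      have := g.le_opNorm (tau (e 0) + v)
      rw [Real.norm_eq_abs] at this
      nlinarith [norm_nonneg (tau (e 0) + v)]
    have h2 : |g (tau (e 0) - v)| ≤ 1 + 1 / 100000 := by
      have := g.le_opNorm (tau (e 0) - v)
      rw [Real.norm_eq_abs] at this
      nlinarith [norm_nonneg (tau (e 0) - v)]
    rw [map_add, abs_le] at h1
    rw [map_sub, abs_le] at h2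
    rw [abs_le]
    constructor <;> linarith [h1.1, h1.2, h2.1, h2.2]
  -- a norming functional of `v` and its bilinear form
  obtain ⟨f, hf, hfv⟩ := exists_dual_vector'' ℝ v
  rw [hv1] at hfv
  have hfv' : f v = 1 := by simpa using hfv
  obtain ⟨B, hs, hfB⟩ := bil_of_functional f
  have hb : ∀ x, |B x x| ≤ ‖x‖ ^ 2 := by
    intro x
    rw [← hfB, ← Real.norm_eq_abs]
    refine (f.le_opNorm _).trans ?_
    have h1 := norm_tau_le (N := 2) x
    nlinarith [norm_nonneg (tau x : SymProj 2 C0)]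
  have hgN : ∀ N, ∃ g : StrongDual ℝ (SymProj 2 C0), ‖g‖ ≤ 1 ∧ ∀ x, g (tau x) = B (T N x) (T N x) := by
    intro N
    obtain ⟨g, hg, hgx⟩ := functional_of_bil (B.compl₁₂ (T N) (T N)) 1 zero_le_one (fun x => by
      rw [LinearMap.compl₁₂_apply, one_mul]
      exact (hb _).trans (pow_le_pow_left₀ (norm_nonneg _) (norm_T_le N x) 2))
    exact ⟨g, hg, fun x => by rw [hgx, LinearMap.compl₁₂_apply]⟩
  choose g hg hgB using hgN
  obtain ⟨N, hN⟩ := approx hs hb f hf hfB g hg hgB v hfv'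
  -- the linear form `ℓ`
  set ell : C0 →ₗ[ℝ] ℝ := (2 : ℝ) • (B (e 0) ∘ₗ S N) with hell
  have hell_apply : ∀ x, ell x = 2 * B (e 0) (S N x) := fun x => rfl
  have hellb : ∀ x, |ell x| ≤ ‖x‖ := fun x => ell_bound hs hb N x
  have hell0 : ell (e 0) = 0 := by rw [hell_apply, S_e0, map_zero, mul_zero]
  obtain ⟨w, hw0, hw1, hdom⟩ := diag_dom hs hb N
  set D : C0 →ₗ[ℝ] C0 →ₗ[ℝ] ℝ := ∑ i : Fin (N + 1), w i • prodB (ev (i + 1)) (ev (i + 1)) with hD
  have hD_apply : ∀ x, D x x = ∑ i : Fin (N + 1), w i * (x (i + 1) * x (i + 1)) := by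
    intro x
    rw [hD, LinearMap.sum_apply, LinearMap.sum_apply]
    rfl
  have hDb : ∀ x, D x x ≤ 768 * ‖x‖ ^ 2 := by
    intro x
    rw [hD_apply]
    calc ∑ i : Fin (N + 1), w i * (x (i + 1) * x (i + 1)) ≤ ∑ i : Fin (N + 1), w i * ‖x‖ ^ 2 := by
          refine Finset.sum_le_sum fun i _ => mul_le_mul_of_nonneg_left ?_ (hw0 i)
          rw [← sq, ← sq_abs]
          exact pow_le_pow_left₀ (abs_nonneg _) (abs_le_norm x _) 2
      _ = (∑ i, w i) * ‖x‖ ^ 2 := by rw [Finset.sum_mul]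
      _ ≤ 768 * ‖x‖ ^ 2 := mul_le_mul_of_nonneg_right hw1 (sq_nonneg _)
  have hD0 : D (e 0) (e 0) = 0 := by
    rw [hD_apply]
    refine Finset.sum_eq_zero fun i _ => ?_
    rw [e_apply, if_neg (by omega)]
    ring
  have hdom' : ∀ x, |B (S N x) (S N x)| ≤ D x x := fun x => by rw [hD_apply]; exact hdom x
  set BS : C0 →ₗ[ℝ] C0 →ₗ[ℝ] ℝ := B.compl₁₂ (S N) (S N) with hBS
  have hBS_apply : ∀ x, BS x x = B (S N x) (S N x) := fun x => rfl
  have hBS0 : BS (e 0) (e 0) = 0 := by rw [hBS_apply, S_e0, map_zero]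
  have hx0 : ∀ x : C0, x 0 ^ 2 ≤ ‖x‖ ^ 2 := fun x => by
    rw [← sq_abs]
    exact pow_le_pow_left₀ (abs_nonneg _) (abs_le_norm x 0) 2
  have hl2 : ∀ x : C0, ell x ^ 2 ≤ ‖x‖ ^ 2 := fun x => by
    rw [← sq_abs]
    exact pow_le_pow_left₀ (abs_nonneg _) (hellb x) 2
  -- the functionals
  obtain ⟨fc, -, hfcx⟩ := functional_of_bil (prodB (ev 0) ell) 1 zero_le_one (fun x => by
    rw [prodB_apply, ev_apply, one_mul, abs_mul, sq]
    exact mul_le_mul (abs_le_norm x 0) (hellb x) (abs_nonneg _) (norm_nonneg _))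
  obtain ⟨fl, -, hflx⟩ := functional_of_bil (prodB ell ell) 1 zero_le_one (fun x => by
    rw [prodB_apply, one_mul, ← sq, abs_of_nonneg (sq_nonneg _)]
    exact hl2 x)
  obtain ⟨fA, -, hfAx⟩ := functional_of_bil ((1 / 2 : ℝ) • (D + BS)) 768 (by norm_num) (fun x => by
    have h1 := abs_le.1 (hdom' x)
    have h2 := hDb x
    have e1 : ((1 / 2 : ℝ) • (D + BS)) x x = 1 / 2 * (D x x + B (S N x) (S N x)) := rfl
    rw [e1, abs_le]
    constructor <;> nlinarith [h1.1, h1.2, sq_nonneg ‖x‖])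
  obtain ⟨fB, -, hfBx⟩ := functional_of_bil ((1 / 2 : ℝ) • (D - BS)) 768 (by norm_num) (fun x => by
    have h1 := abs_le.1 (hdom' x)
    have h2 := hDb x
    have e1 : ((1 / 2 : ℝ) • (D - BS)) x x = 1 / 2 * (D x x - B (S N x) (S N x)) := rfl
    rw [e1, abs_le]
    constructor <;> nlinarith [h1.1, h1.2, sq_nonneg ‖x‖])
  -- the polynomials of norm one
  obtain ⟨gA, hgA, hgAx⟩ := functional_of_bil (prodB (ev 0) (ev 0) - (1 / 768 : ℝ) • ((1 / 2 : ℝ) • (D + BS))) 1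
    zero_le_one (fun x => by
    have h1 := abs_le.1 (hdom' x)
    have h2 := hDb x
    have h3 := hx0 x
    have e1 : (prodB (ev 0) (ev 0) - (1 / 768 : ℝ) • ((1 / 2 : ℝ) • (D + BS))) x x =
      x 0 * x 0 - 1 / 768 * (1 / 2 * (D x x + B (S N x) (S N x))) := rfl
    rw [e1, abs_le]
    constructor <;> nlinarith [h1.1, h1.2, sq_nonneg ‖x‖, sq_nonneg (x 0)])
  obtain ⟨gB, hgB', hgBx⟩ := functional_of_bil (prodB (ev 0) (ev 0) - (1 / 768 : ℝ) • ((1 / 2 : ℝ) • (D - BS))) 1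
    zero_le_one (fun x => by
    have h1 := abs_le.1 (hdom' x)
    have h2 := hDb x
    have h3 := hx0 x
    have e1 : (prodB (ev 0) (ev 0) - (1 / 768 : ℝ) • ((1 / 2 : ℝ) • (D - BS))) x x =
      x 0 * x 0 - 1 / 768 * (1 / 2 * (D x x - B (S N x) (S N x))) := rfl
    rw [e1, abs_le]
    constructor <;> nlinarith [h1.1, h1.2, sq_nonneg ‖x‖, sq_nonneg (x 0)])
  obtain ⟨gl, hgl, hglx⟩ := functional_of_bil (prodB (ev 0) (ev 0) - prodB ell ell) 1
    zero_le_one (fun x => by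
    have h3 := hx0 x
    have h4 := hl2 x
    have e1 : (prodB (ev 0) (ev 0) - prodB ell ell) x x = x 0 * x 0 - ell x * ell x := rfl
    rw [e1, abs_le]
    constructor <;> nlinarith [sq_nonneg (x 0), sq_nonneg (ell x)])
  obtain ⟨gP, hgP, hgPx⟩ := functional_of_bil ((16 / 17 : ℝ) • prodB (ev 0) (ev 0) + (8 / 17 : ℝ) • prodB (ev 0) ell
      - (16 / 17 : ℝ) • prodB ell ell) 1 zero_le_one (fun x => by
    have h3 := hx0 x
    have h4 := hl2 x
    have e1 : ((16 / 17 : ℝ) • prodB (ev 0) (ev 0) + (8 / 17 : ℝ) • prodB (ev 0) ell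
      - (16 / 17 : ℝ) • prodB ell ell) x x =
        16 / 17 * (x 0 * x 0) + 8 / 17 * (x 0 * ell x) - 16 / 17 * (ell x * ell x) := rfl
    rw [e1, abs_le]
    constructor
    · nlinarith [sq_nonneg (4 * x 0 + ell x)]
    · nlinarith [sq_nonneg (x 0 - 4 * ell x)])
  have hcoef : |B (e 0) (e 0)| ≤ 1 := by
    have := hb (e 0)
    rwa [norm_e, one_pow] at this
  -- values at `e₀ ⊗ e₀`
  have vA : gA (tau (e 0)) = 1 := by
    rw [hgAx]
    change e 0 0 * e 0 0 - 1 / 768 * (1 / 2 * (D (e 0) (e 0) + BS (e 0) (e 0))) = 1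
    rw [hD0, hBS0, e_apply, if_pos rfl]
    norm_num
  have vB : gB (tau (e 0)) = 1 := by
    rw [hgBx]
    change e 0 0 * e 0 0 - 1 / 768 * (1 / 2 * (D (e 0) (e 0) - BS (e 0) (e 0))) = 1
    rw [hD0, hBS0, e_apply, if_pos rfl]
    norm_num
  have vl : gl (tau (e 0)) = 1 := by
    rw [hglx]
    change e 0 0 * e 0 0 - ell (e 0) * ell (e 0) = 1
    rw [hell0, e_apply, if_pos rfl]
    norm_num
  have vP : gP (tau (e 0)) = 16 / 17 := by
    rw [hgPx]
    change 16 / 17 * (e 0 0 * e 0 0) + 8 / 17 * (e 0 0 * ell (e 0)) - 16 / 17 * (ell (e 0) * ell (e 0)) = 16 / 17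
    rw [hell0, e_apply, if_pos rfl]
    norm_num
  -- relations
  have rA : gA = f1 - (1 / 768 : ℝ) • fA := functional_ext fun x => by
    rw [hgAx, sub_ap, smul_ap, hf1x, hfAx]
    rfl
  have rB : gB = f1 - (1 / 768 : ℝ) • fB := functional_ext fun x => by
    rw [hgBx, sub_ap, smul_ap, hf1x, hfBx]
    rfl
  have rl : gl = f1 - fl := functional_ext fun x => by
    rw [hglx, sub_ap, hf1x, hflx]
    rfl
  have rP : gP = (16 / 17 : ℝ) • f1 + (8 / 17 : ℝ) • fc - (16 / 17 : ℝ) • fl := functional_ext fun x => by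
    rw [hgPx, sub_ap, add_ap, smul_ap,
      smul_ap, smul_ap, hf1x, hflx, hfcx]
    rfl
  have rN : g N = B (e 0) (e 0) • f1 + fc + fA - fB := functional_ext fun x => by
    rw [hgB, sub_ap, add_ap, add_ap,
      smul_ap, hf1x, hfcx, hfAx, hfBx, T_apply]
    change B (x 0 • e 0 + S N x) (x 0 • e 0 + S N x) = B (e 0) (e 0) * (x 0 * x 0) +
      x 0 * (2 * B (e 0) (S N x)) + 1 / 2 * (D x x + B (S N x) (S N x)) - 1 / 2 * (D x x - B (S N x) (S N x))
    simp only [map_add, map_smul, LinearMap.add_apply, LinearMap.smul_apply, smul_eq_mul, hs (S N x) (e 0)]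
    ring
  have b1 := hdual f1 hf1 (by rw [he0]; norm_num)
  have bA := hdual gA hgA (by rw [vA]; norm_num)
  have bB := hdual gB hgB' (by rw [vB]; norm_num)
  have bl := hdual gl hgl (by rw [vl]; norm_num)
  have bP := hdual gP hgP (by rw [vP]; norm_num)
  rw [he0] at b1
  rw [vA, rA, sub_ap, smul_ap] at bA
  rw [vB, rB, sub_ap, smul_ap] at bB
  rw [vl, rl, sub_ap] at bl
  rw [vP, rP, sub_ap, add_ap, smul_ap,
    smul_ap, smul_ap] at bP
  rw [rN, sub_ap, add_ap, add_ap,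
    smul_ap] at hN
  have h5 : B (e 0) (e 0) * f1 v ≤ 1 / 100000 := by
    have h6 : |B (e 0) (e 0) * f1 v| ≤ 1 * (1 / 100000) := by
      rw [abs_mul]
      exact mul_le_mul hcoef (by linarith) (abs_nonneg _) zero_le_one
    linarith [le_abs_self (B (e 0) (e 0) * f1 v)]
  rw [abs_le] at b1 bA bB bl bP
  linarith [b1.1, b1.2, bA.1, bA.2, bB.1, bB.2, bl.1, bl.2, bP.1, bP.2]

end Pool.Agent.X19.ASQ
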