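import Pool.Agent.X19.ASQ.C0

/-! # The symmetric projective square of `c₀` is not almost square -/

set_option autoImplicit false

namespace Pool.Agent.X19.ASQ

open Filter Topology
open scoped ZeroAtInfty

section

variable {B : C0 →ₗ[ℝ] C0 →ₗ[ℝ] ℝ} (hs : ∀ x y, B x y = B y x) (hb : ∀ x, |B x x| ≤ ‖x‖ ^ 2)

include hs hb

theorem polar (x y : C0) : |B x y| ≤ (‖x + y‖ ^ 2 + ‖x - y‖ ^ 2) / 4 := by
  have h1 : B (x + y) (x + y) - B (x - y) (x - y) = 4 * B x y := by
    simp only [map_add, map_sub, LinearMap.add_apply, LinearMap.sub_apply, hs y x]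
    ring
  have h2 : B x y = (B (x + y) (x + y) - B (x - y) (x - y)) / 4 := by linarith
  rw [h2, abs_div, abs_of_pos (show (0 : ℝ) < 4 by norm_num)]
  refine div_le_div_of_nonneg_right ?_ (by norm_num)
  exact (abs_sub _ _).trans (add_le_add (hb _) (hb _))

theorem bil_le_two {x y : C0} (hx : ‖x‖ ≤ 1) (hy : ‖y‖ ≤ 1) : |B x y| ≤ 2 := by
  refine (polar hs hb x y).trans ?_
  have h1 : ‖x + y‖ ≤ 2 := (norm_add_le _ _).trans (by linarith)
  have h2 : ‖x - y‖ ≤ 2 := (norm_sub_le _ _).trans (by linarith)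
  have h3 := norm_nonneg (x + y)
  have h4 := norm_nonneg (x - y)
  nlinarith

theorem bil_bound (x y : C0) : |B x y| ≤ 2 * ‖x‖ * ‖y‖ := by
  by_cases hx : x = 0
  · rw [hx, map_zero, LinearMap.zero_apply, abs_zero]
    simp
  by_cases hy : y = 0
  · rw [hy, map_zero, abs_zero]
    simp
  have hx' : 0 < ‖x‖ := norm_pos_iff.2 hx
  have hy' : 0 < ‖y‖ := norm_pos_iff.2 hy
  have h := bil_le_two hs hb (x := ‖x‖⁻¹ • x) (y := ‖y‖⁻¹ • y)
    (by rw [norm_smul, norm_inv, norm_norm, inv_mul_cancel₀ hx'.ne'])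
    (by rw [norm_smul, norm_inv, norm_norm, inv_mul_cancel₀ hy'.ne'])
  rw [map_smul, map_smul, LinearMap.smul_apply, smul_eq_mul, smul_eq_mul, abs_mul, abs_mul, abs_inv, abs_inv,
    abs_norm, abs_norm, ← mul_assoc, ← mul_inv, inv_mul_le_iff₀ (by positivity)] at h
  linarith

theorem tendsto_bil (x : C0) : Tendsto (fun N => B (T N x) (T N x)) atTop (𝓝 (B x x)) := by
  rw [tendsto_iff_norm_sub_tendsto_zero]
  have h1 : Tendsto (fun N => ‖T N x - x‖) atTop (𝓝 0) :=
    tendsto_iff_norm_sub_tendsto_zero.1 (tendsto_T x)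
  refine squeeze_zero (fun _ => norm_nonneg _) (fun N => ?_) (g := fun N => ‖T N x - x‖ * (4 * ‖x‖)) ?_
  · have e1 : B (T N x) (T N x) - B x x = B (T N x - x) (T N x + x) := by
      simp only [map_add, map_sub, LinearMap.sub_apply, hs x (T N x)]
      ring
    rw [Real.norm_eq_abs, e1]
    refine (bil_bound hs hb _ _).trans ?_
    have h2 : ‖T N x + x‖ ≤ 2 * ‖x‖ := (norm_add_le _ _).trans (by linarith [norm_T_le N x])
    nlinarith [norm_nonneg (T N x - x)]
  · simpa using h1.mul_const (4 * ‖x‖)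

omit hs hb in
theorem norm_comb_le (N : ℕ) (a : ℝ) (r : Fin (N + 1) → ℝ) (ha : |a| ≤ 1) (hr : ∀ i, |r i| ≤ 1) :
    ‖a • e 0 + ∑ i : Fin (N + 1), r i • e (i + 1)‖ ≤ 1 := by
  refine norm_le_of _ zero_le_one fun k => ?_
  rw [ZeroAtInftyContinuousMap.add_apply, ZeroAtInftyContinuousMap.smul_apply, comb_coord, e_apply,
    smul_eq_mul]
  rcases Nat.eq_zero_or_pos k with hk | hk
  · subst hk
    simpa using ha
  · rw [if_neg hk.ne', mul_zero, zero_add]
    split_ifs
    · exact hr _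
    · simp

theorem ell_bound (N : ℕ) (x : C0) : |2 * B (e 0) (S N x)| ≤ ‖x‖ := by
  have key : ∀ y : C0, ‖y‖ ≤ 1 → |2 * B (e 0) (S N y)| ≤ 1 := by
    intro y hy
    have h1 : ‖e 0 + S N y‖ ≤ 1 := by
      have := norm_comb_le N 1 (fun i => y (i + 1)) (by simp) (fun i => (abs_le_norm y _).trans hy)
      rwa [one_smul, ← S_apply] at this
    have h2 : ‖e 0 - S N y‖ ≤ 1 := by
      have := norm_comb_le N 1 (fun i => (-y) (i + 1)) (by simp) (fun i => by
        rw [ZeroAtInftyContinuousMap.neg_apply, abs_neg]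
        exact (abs_le_norm y _).trans hy)
      rwa [one_smul, ← S_apply, map_neg, ← sub_eq_add_neg] at this
    have h3 := polar hs hb (e 0) (S N y)
    rw [abs_mul, abs_two]
    have h4 := norm_nonneg (e 0 + S N y)
    have h5 := norm_nonneg (e 0 - S N y)
    nlinarith
  by_cases hx : x = 0
  · rw [hx, map_zero, map_zero]
    simp
  have hx' : 0 < ‖x‖ := norm_pos_iff.2 hx
  have h := key (‖x‖⁻¹ • x) (by rw [norm_smul, norm_inv, norm_norm, inv_mul_cancel₀ hx'.ne'])
  rw [map_smul, map_smul, smul_eq_mul, mul_left_comm, abs_mul, abs_inv, abs_norm,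
    inv_mul_le_iff₀ hx', mul_one] at h
  exact h

/-- the matrix of the form -/
noncomputable def mat (B : C0 →ₗ[ℝ] C0 →ₗ[ℝ] ℝ) (N : ℕ) (i j : Fin (N + 1)) : ℝ :=
  B (e (i + 1)) (e (j + 1))

omit hs hb in
theorem mat_sum (N : ℕ) (r s : Fin (N + 1) → ℝ) :
    B (∑ i : Fin (N + 1), r i • e (i + 1)) (∑ j : Fin (N + 1), s j • e (j + 1)) =
      ∑ i, ∑ j, mat B N i j * r i * s j := by
  rw [map_sum B, LinearMap.sum_apply]
  refine Finset.sum_congr rfl fun i _ => ?_
  rw [map_smul, LinearMap.smul_apply, map_sum, Finset.smul_sum]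
  refine Finset.sum_congr rfl fun j _ => ?_
  rw [map_smul, smul_eq_mul, smul_eq_mul, mat]
  ring

theorem mat_real (N : ℕ) (r s : Fin (N + 1) → ℝ) (hr : ∀ i, |r i| ≤ 1) (hs' : ∀ i, |s i| ≤ 1) :
    |∑ i, ∑ j, mat B N i j * r i * s j| ≤ 2 := by
  rw [← mat_sum]
  refine bil_le_two hs hb ?_ ?_
  · have := norm_comb_le N 0 r (by simp) hr
    rwa [zero_smul, zero_add] at this
  · have := norm_comb_le N 0 s (by simp) hs'
    rwa [zero_smul, zero_add] at this

theorem mat_complex (N : ℕ) : H758R2.Groth.BBound (fun i j => (mat B N i j : ℂ)) 8 := by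
  intro x y hx hy
  have e1 : ∑ i, ∑ j, (mat B N i j : ℂ) * x i * y j =
      ((∑ i, ∑ j, mat B N i j * (x i).re * (y j).re : ℝ) : ℂ)
      - ((∑ i, ∑ j, mat B N i j * (x i).im * (y j).im : ℝ) : ℂ)
      + Complex.I * ((∑ i, ∑ j, mat B N i j * (x i).re * (y j).im : ℝ) : ℂ)
      + Complex.I * ((∑ i, ∑ j, mat B N i j * (x i).im * (y j).re : ℝ) : ℂ) := by
    push_cast
    rw [Finset.mul_sum, Finset.mul_sum, ← Finset.sum_sub_distrib, ← Finset.sum_add_distrib,
      ← Finset.sum_add_distrib]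
    refine Finset.sum_congr rfl fun i _ => ?_
    rw [Finset.mul_sum, Finset.mul_sum, ← Finset.sum_sub_distrib, ← Finset.sum_add_distrib,
      ← Finset.sum_add_distrib]
    refine Finset.sum_congr rfl fun j _ => ?_
    have hxi := Complex.re_add_im (x i)
    have hyj := Complex.re_add_im (y j)
    have hI := Complex.I_mul_I
    conv_lhs => rw [← hxi, ← hyj]
    linear_combination (mat B N i j : ℂ) * ((x i).im : ℂ) * ((y j).im : ℂ) * hI
  have hxr : ∀ i, |(x i).re| ≤ 1 := fun i => (Complex.abs_re_le_norm _).trans (hx i)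
  have hxi : ∀ i, |(x i).im| ≤ 1 := fun i => (Complex.abs_im_le_norm _).trans (hx i)
  have hyr : ∀ i, |(y i).re| ≤ 1 := fun i => (Complex.abs_re_le_norm _).trans (hy i)
  have hyi : ∀ i, |(y i).im| ≤ 1 := fun i => (Complex.abs_im_le_norm _).trans (hy i)
  have n1 := mat_real hs hb N _ _ hxr hyr
  have n2 := mat_real hs hb N _ _ hxi hyi
  have n3 := mat_real hs hb N _ _ hxr hyi
  have n4 := mat_real hs hb N _ _ hxi hyr
  rw [e1]
  refine (norm_add_le _ _).trans ?_
  refine (add_le_add ((norm_add_le _ _).trans (add_le_add (norm_sub_le _ _) le_rfl)) le_rfl).trans ?_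
  rw [norm_mul, norm_mul, Complex.norm_I, one_mul, one_mul, Complex.norm_real, Complex.norm_real,
    Complex.norm_real, Complex.norm_real, Real.norm_eq_abs, Real.norm_eq_abs, Real.norm_eq_abs,
    Real.norm_eq_abs]
  linarith

/-- domination by a diagonal form (Grothendieck) -/
theorem diag_dom (N : ℕ) : ∃ w : Fin (N + 1) → ℝ, (∀ i, 0 ≤ w i) ∧ ∑ i, w i ≤ 768 ∧
    ∀ x : C0, |B (S N x) (S N x)| ≤ ∑ i : Fin (N + 1), w i * (x (i + 1) * x (i + 1)) := by
  have hK := H758R2.Groth.groth _ (mat_complex hs hb N)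
  obtain ⟨lam, mu, hl, hm, hl1, hm1, h⟩ := H758R2.Groth.pietsch _ hK
  refine ⟨fun i => 384 * (lam i + mu i), fun i => by have := hl i; have := hm i; positivity, ?_, fun x => ?_⟩
  · rw [← Finset.mul_sum, Finset.sum_add_distrib, hl1, hm1]
    norm_num
  · have key : ∀ s : ℝ, s ^ 2 = 1 → s * B (S N x) (S N x) ≤
        ∑ i : Fin (N + 1), 384 * (lam i + mu i) * (x (i + 1) * x (i + 1)) := by
      intro s hs2
      have h1 := h (fun i => ((x (i + 1) : ℝ) : ℂ)) (fun i => ((s * x (i + 1) : ℝ) : ℂ))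
      have e1 : (H758R2.Groth.B (fun i j => (mat B N i j : ℂ)) (fun i => ((x (i + 1) : ℝ) : ℂ))
          (fun i => ((s * x (i + 1) : ℝ) : ℂ))).re = s * B (S N x) (S N x) := by
        rw [S_apply, mat_sum, H758R2.Groth.B, Finset.mul_sum]
        rw [Complex.re_sum]
        refine Finset.sum_congr rfl fun i _ => ?_
        rw [Complex.re_sum, Finset.mul_sum]
        refine Finset.sum_congr rfl fun j _ => ?_
        rw [← Complex.ofReal_mul, ← Complex.ofReal_mul, Complex.ofReal_re]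
        ring
      rw [e1] at h1
      refine h1.trans (le_of_eq ?_)
      simp only [Complex.norm_real, Real.norm_eq_abs, sq_abs]
      rw [← Finset.sum_add_distrib, Finset.mul_sum]
      refine Finset.sum_congr rfl fun i _ => ?_
      rw [mul_pow, hs2]
      ring
    have h1 := key 1 (by norm_num)
    have h2 := key (-1) (by norm_num)
    rw [abs_le]
    constructor <;> linarith

end

end Pool.Agent.X19.ASQ
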